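import Mathlib
import Pool.Agent.Lib.helper31.RecDefs
import Pool.Agent.Lib.helper31.CutSpace

namespace Pool.Agent.Results.MP_145b75_an.UrecNotDelta

open Topology Pool.Agent.Lib.helper31.RecDefs

theorem result : ∃ (X : Type) (_ : NormedAddCommGroup X) (_ : NormedSpace ℂ X) (_ : CompleteSpace X)
    (_ : TopologicalSpace.SeparableSpace X) (T : X →L[ℂ] X),
    IsRecurrentOp Syndetic T ∧ ¬ IsRecurrentOp DeltaStar T := by
  obtain ⟨X, _, _, _, _, _, T, -, h1, h2⟩ := Pool.Agent.Lib.helper31.CutSpace.main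
  refine ⟨X, inferInstance, inferInstance, inferInstance, inferInstance, T, h1, fun h => ?_⟩
  obtain ⟨y, hy⟩ := exists_ne (0 : X)
  exact hy (by simpa using (h.mono (s₂ := {0}) h2) y)

end Pool.Agent.Results.MP_145b75_an.UrecNotDelta
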